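import Mathlib
import Pool.Agent.H54.G.H58P.Ht

set_option autoImplicit false

/-!
# A lower bound for heights from local conditions
-/

namespace Pool.Agent.H58B

open NumberField Height Module
open Pool.Agent.Helper259.AbsHt
open Pool.Agent.H58P (Qb ht qb_isIntegral)

/-- a finite place of a number field extends to a valuation subring of `Qb` -/
lemma exists_valuationSubring (L : IntermediateField ℚ Qb) [NumberField L] (v : FinitePlace L) :
    ∃ V : ValuationSubring Qb, ∀ z : L, v z < 1 → V.valuation (z : Qb) < 1 := by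
  let A : ValuationSubring L :=
    { carrier := {z | v z ≤ 1}
      mul_mem' := fun {a b} ha hb => by
        show v (a * b) ≤ 1
        rw [map_mul]
        exact mul_le_one₀ ha (apply_nonneg v b) hb
      one_mem' := by
        show v 1 ≤ 1
        rw [map_one]
      add_mem' := fun {a b} ha hb => by
        show v (a + b) ≤ 1
        exact (FinitePlace.add_le v a b).trans (max_le ha hb)
      zero_mem' := by
        show v 0 ≤ 1
        rw [map_zero]
        exact zero_le_one
      neg_mem' := fun {a} ha => by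
        show v (-a) ≤ 1
        have h1 : v (-a) = v (-1) * v a := by rw [← map_mul, neg_one_mul]
        have h2 : v (-1) * v (-1) = 1 := by rw [← map_mul, neg_one_mul, neg_neg, map_one]
        have h3 : v (-1) = 1 := by
          rcases mul_self_eq_one_iff.mp h2 with h | h
          · exact h
          · have := apply_nonneg v (-1)
            linarith
        rw [h1, h3, one_mul]
        exact ha
      mem_or_inv_mem' := fun a => by
        by_cases h : v a ≤ 1
        · exact Or.inl h
        · right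
          show v a⁻¹ ≤ 1
          rw [map_inv₀]
          exact inv_le_one_of_one_le₀ (le_of_lt (not_le.mp h)) }
  obtain ⟨V, hV, hloc⟩ := IsLocalRing.exists_factor_valuationRing
    ((algebraMap L Qb).comp A.subtype)
  refine ⟨V, fun z hz => ?_⟩
  have hzA : z ∈ A := le_of_lt hz
  have hmem : (z : Qb) ∈ V := hV ⟨z, hzA⟩
  rw [← ValuationSubring.valuation_lt_one_iff V ⟨(z : Qb), hmem⟩]
  rw [IsLocalRing.mem_maximalIdeal, mem_nonunits_iff]
  intro hu
  have h1 : IsUnit ((((algebraMap L Qb).comp A.subtype).codRestrict V.toSubring hV) ⟨z, hzA⟩) := hu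
  have h2 := hloc.map_nonunit _ h1
  obtain ⟨u, hu⟩ := h2
  have h3 : v z * v ((u⁻¹ : Aˣ) : A) = 1 := by
    have h4 : (z : L) * ((u⁻¹ : Aˣ) : A) = 1 := by
      have := u.mul_inv
      rw [hu] at this
      exact congrArg (fun a : A => (a : L)) this
    rw [← map_mul, h4, map_one]
  have h5 : v ((u⁻¹ : Aˣ) : A) ≤ 1 := ((u⁻¹ : Aˣ) : A).2
  have h6 : 0 ≤ v z := apply_nonneg v z
  nlinarith

/-- a lower bound for the height of a vector from local conditions -/
theorem height_ge {ι : Type*} [Finite ι] [Nonempty ι] (x : ι → Qb)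
    (hV : ∀ V : ValuationSubring Qb, ∃ i, 1 ≤ V.valuation (x i))
    (hφ : ∀ φ : Qb →+* ℂ, ∃ i, 2 ≤ ‖φ (x i)‖) : Real.log 2 ≤ absLogHeight x := by
  obtain ⟨L, hL, hmem⟩ := exists_nf (Set.range x) (Set.finite_range x)
  obtain ⟨y, rfl⟩ := lift_vec L x fun i => hmem _ ⟨i, rfl⟩
  rw [val_eq, le_div_iff₀ (finrank_pos' L), logHeight_eq_log_mulHeight]
  have hy : y ≠ 0 := by
    rintro rfl
    obtain ⟨V⟩ : Nonempty (ValuationSubring Qb) := inferInstance
    obtain ⟨i, hi⟩ := hV V
    simp at hi
  have hbdd : ∀ v : L → ℝ, BddAbove (Set.range fun i => v (y i)) := fun v =>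
    (Set.finite_range _).bddAbove
  have h1 : (2 : ℝ) ^ finrank ℚ L ≤ ∏ v : InfinitePlace L, (⨆ i, v (y i)) ^ v.mult := by
    rw [← InfinitePlace.sum_mult_eq (K := L), ← Finset.prod_pow_eq_pow_sum]
    apply Finset.prod_le_prod
    · intro v _
      positivity
    · intro v _
      apply pow_le_pow_left₀ (by norm_num)
      -- extend the embedding
      let _ : Algebra L ℂ := v.embedding.toAlgebra
      have halg : Algebra.IsAlgebraic L Qb := ⟨fun z =>
        ((qb_isIntegral z).tower_top (A := L)).isAlgebraic⟩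
      let ψ : Qb →ₐ[L] ℂ := IsAlgClosed.lift
      obtain ⟨i, hi⟩ := hφ (ψ : Qb →+* ℂ)
      have h2 : v (y i) = ‖(ψ : Qb →+* ℂ) (y i : Qb)‖ := by
        have h3 : (ψ : Qb →+* ℂ) (y i : Qb) = v.embedding (y i) := ψ.commutes (y i)
        rw [h3, InfinitePlace.norm_embedding_eq]
      rw [← h2] at hi
      exact hi.trans (le_ciSup (hbdd v) i)
  have h2 : (1 : ℝ) ≤ ∏ᶠ v : FinitePlace L, ⨆ i, v (y i) := by
    apply one_le_finprod
    intro v
    obtain ⟨V, hVv⟩ := exists_valuationSubring L v
    obtain ⟨i, hi⟩ := hV V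
    have h3 : 1 ≤ v (y i) := by
      by_contra hcon
      exact absurd (hVv (y i) (not_le.mp hcon)) (not_lt.mpr hi)
    exact h3.trans (le_ciSup (hbdd v) i)
  rw [NumberField.mulHeight_eq hy, mul_comm (Real.log 2), ← Real.log_pow]
  apply Real.log_le_log (by positivity)
  have h3 : (0 : ℝ) < 2 ^ finrank ℚ L := by positivity
  calc (2 : ℝ) ^ finrank ℚ L = 2 ^ finrank ℚ L * 1 := (mul_one _).symm
    _ ≤ _ := mul_le_mul h1 h2 zero_le_one (h3.le.trans h1)

/-- heights are invariant under automorphisms -/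
lemma ht_conj (σ : Qb ≃ₐ[ℚ] Qb) (x : Qb) : ht (σ x) = ht x := by
  obtain ⟨L, hL, hmem⟩ := exists_nf {x} (Set.finite_singleton x)
  have hx : x ∈ L := hmem x rfl
  have h1 := absLogHeight_eq L (algebraMap L Qb) ![1, (⟨x, hx⟩ : L)]
  have h2 := absLogHeight_eq L ((σ : Qb →+* Qb).comp (algebraMap L Qb)) ![1, (⟨x, hx⟩ : L)]
  have e1 : (fun i => algebraMap L Qb ((![1, (⟨x, hx⟩ : L)] : Fin 2 → L) i)) = ![1, x] := by
    funext i
    fin_cases i
    · simp
    · simp
  have e2 : (fun i => ((σ : Qb →+* Qb).comp (algebraMap L Qb)) ((![1, (⟨x, hx⟩ : L)] : Fin 2 → L) i))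
      = ![1, σ x] := by
    funext i
    fin_cases i
    · simp
    · simp
  rw [e1] at h1
  rw [e2] at h2
  show absLogHeight ![1, σ x] = absLogHeight ![1, x]
  rw [h1, h2]

/-- the height of a product vector -/
lemma absLogHeight_four (A B : Qb) : absLogHeight (fun a : Fin 2 × Fin 2 =>
    (![1, A] : Fin 2 → Qb) a.1 * (![1, B] : Fin 2 → Qb) a.2) = ht A + ht B := by
  apply absLogHeight_segre
  · intro h
    have := congrFun h 0
    simp at this
  · intro h
    have := congrFun h 0
    simp at this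

lemma ht_pow (x : Qb) (n : ℕ) : ht (x ^ n) = n * ht x := by
  have h1 := Pool.Agent.H58W.absLogHeight_pow ![1, x] n
  have e : (fun i => (![1, x] : Fin 2 → Qb) i ^ n) = ![1, x ^ n] := by
    funext i
    fin_cases i <;> simp
  rw [e] at h1
  exact h1

/-- the quadratic step -/
theorem ht_quad (α β t : Qb) (hα : α ≠ 0) (hβt : β * t ≠ 0)
    (hconj : ht (α - β * t) = ht (α + β * t))
    (hV : ∀ V : ValuationSubring Qb, V.valuation (2 : Qb) < 1 →
      V.valuation α ≠ V.valuation (β * t)) :
    Real.log 2 / 4 ≤ ht (α + β * t) := by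
  set γ := β * t with hγ
  set y := α + γ with hy
  set z := α - γ with hz
  have hne : α * γ ≠ 0 := mul_ne_zero hα hβt
  have hu : y ^ 2 - z ^ 2 = 4 * (α * γ) := by rw [hy, hz]; ring
  set w : Fin 2 × Fin 2 → Qb := fun a =>
    (![1, y ^ 2] : Fin 2 → Qb) a.1 * (![1, z ^ 2] : Fin 2 → Qb) a.2 with hw
  have hsm : absLogHeight ((α * γ)⁻¹ • w) = absLogHeight w :=
    absLogHeight_smul w (inv_ne_zero hne)
  have h4 : absLogHeight w = 4 * ht y := by
    rw [hw, absLogHeight_four, ht_pow, ht_pow, hconj]
    push_cast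
    ring
  have hw1 : w (1, 0) = y ^ 2 := by simp [hw]
  have hw2 : w (0, 1) = z ^ 2 := by simp [hw]
  have key : Real.log 2 ≤ absLogHeight ((α * γ)⁻¹ • w) := by
    apply height_ge
    · intro V
      by_contra hcon
      push Not at hcon
      have h1 : V.valuation ((α * γ)⁻¹ * y ^ 2) < 1 := by
        have := hcon (1, 0)
        rwa [Pi.smul_apply, smul_eq_mul, hw1] at this
      have h2 : V.valuation ((α * γ)⁻¹ * z ^ 2) < 1 := by
        have := hcon (0, 1)
        rwa [Pi.smul_apply, smul_eq_mul, hw2] at this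
      have h2V : V.valuation (2 : Qb) ≤ 1 := by
        rw [ValuationSubring.valuation_le_one_iff]
        exact ofNat_mem V 2
      rcases lt_or_eq_of_le h2V with h | h
      · have hne' := hV V h
        have hva : V.valuation α ≠ 0 := (Valuation.ne_zero_iff _).mpr hα
        have hvg : V.valuation γ ≠ 0 := (Valuation.ne_zero_iff _).mpr hβt
        have hmax : V.valuation y = max (V.valuation α) (V.valuation γ) :=
          Valuation.map_add_of_distinct_val _ hne'
        rw [map_mul, map_inv₀, map_mul, map_pow, hmax] at h1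
        have h3 : V.valuation α * V.valuation γ ≤ max (V.valuation α) (V.valuation γ) ^ 2 := by
          rw [sq]
          exact mul_le_mul' (le_max_left _ _) (le_max_right _ _)
        have h5 : 1 ≤ (V.valuation α * V.valuation γ)⁻¹ *
            max (V.valuation α) (V.valuation γ) ^ 2 := by
          rw [← inv_mul_cancel₀ (mul_ne_zero hva hvg)]
          exact mul_le_mul_right h3 _
        exact absurd h1 (not_lt.mpr h5)
      · have h3 : V.valuation ((α * γ)⁻¹ * y ^ 2 - (α * γ)⁻¹ * z ^ 2) < 1 :=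
          Valuation.map_sub_lt _ h1 h2
        rw [← mul_sub, hu] at h3
        have h5 : (α * γ)⁻¹ * (4 * (α * γ)) = 2 * 2 := by
          field_simp
          norm_num
        rw [h5, map_mul, h, one_mul] at h3
        exact lt_irrefl _ h3
    · intro φ
      by_contra hcon
      push Not at hcon
      have h1 : ‖φ ((α * γ)⁻¹ * y ^ 2)‖ < 2 := by
        have := hcon (1, 0)
        rwa [Pi.smul_apply, smul_eq_mul, hw1] at this
      have h2 : ‖φ ((α * γ)⁻¹ * z ^ 2)‖ < 2 := by
        have := hcon (0, 1)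
        rwa [Pi.smul_apply, smul_eq_mul, hw2] at this
      have h3 : ‖φ ((α * γ)⁻¹ * y ^ 2 - (α * γ)⁻¹ * z ^ 2)‖ < 4 := by
        rw [map_sub]
        calc _ ≤ ‖φ ((α * γ)⁻¹ * y ^ 2)‖ + ‖φ ((α * γ)⁻¹ * z ^ 2)‖ := norm_sub_le _ _
          _ < 4 := by linarith
      rw [← mul_sub, hu] at h3
      have h5 : (α * γ)⁻¹ * (4 * (α * γ)) = 4 := by
        field_simp
      rw [h5, map_ofNat] at h3
      norm_num at h3
  rw [hsm, h4] at key
  linarith

end Pool.Agent.H58B
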